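import Mathlib

/-!
# PROJECT AG (MP_0f21ab_al): finite solvable groups with abelian Sylow subgroups have
`3 * |G| ≤ 3 ^ k(G)`, so `k(G) ≥ 1 + log_3 |G|`.  Definitions and the statements of the packets.
-/

set_option autoImplicit false

namespace Pool.Agent.Helper32.AG

universe u

open scoped commutatorElement

/-- The number of conjugacy classes. -/
noncomputable def k (G : Type u) [Group G] : ℕ := Nat.card (ConjClasses G)

/-- Every `p`-subgroup is commutative, for every prime `p` (all Sylow subgroups are abelian). -/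
def AbS (G : Type u) [Group G] : Prop :=
  ∀ p : ℕ, p.Prime → ∀ P : Subgroup G, IsPGroup p P → ∀ x ∈ P, ∀ y ∈ P, x * y = y * x

/-- The subgroup of `V` generated by all `⁅v, x⁆` and `⁅v, y⁆`, `v ∈ V`. -/
def Wc {G : Type u} [Group G] (V : Subgroup G) (x y : G) : Subgroup G :=
  Subgroup.closure {g | ∃ v ∈ V, g = ⁅v, x⁆ ∨ g = ⁅v, y⁆}

/-- The elements of `V` that commute with `x` and `y`. -/
def Cc {G : Type u} [Group G] (V : Subgroup G) (x y : G) : Subgroup G :=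
  V ⊓ Subgroup.centralizer {x, y}

/-- The stabilizer of `v ∈ V` in `K = G / V`: the image of the centralizer of `v`. -/
def Kst {G : Type u} [Group G] (V : Subgroup G) [V.Normal] (v : G) : Subgroup (G ⧸ V) :=
  (Subgroup.centralizer {v}).map (QuotientGroup.mk' V)

/-! ### Packet AGQ (easy): closure -/

/-- images and preimages (so subgroups and quotients) of `AbS`-groups. For a surjective `f` and a
`p`-subgroup `P` of `G'`: a Sylow `p`-subgroup of `f⁻¹ P` maps onto `P`. -/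
def AgqStmt : Prop :=
  (∀ (G G' : Type u) [Group G] [Group G'] [Finite G] (f : G →* G'),
    Function.Surjective f → AbS G → AbS G') ∧
  (∀ (G G' : Type u) [Group G] [Group G'] (f : G →* G'),
    Function.Injective f → AbS G' → AbS G)

/-! ### Packet AGN (easy): nilpotent `AbS`-groups are commutative -/

def AgnStmt : Prop := ∀ (G : Type u) [Group G] [Finite G], Group.IsNilpotent G → AbS G →
  ∀ x y : G, x * y = y * x

/-! ### Packet ELE: `⁅x, y⁆ ∈ [V, ⟨x, y⟩]` -/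

/-- May assume `AgqStmt`, `AgnStmt`. Proof: let `N = ⟨x, y, V⟩`. `W = Wc V x y ≤ V` is normal in
`N`: `⁅v, x⁆` conjugated by `y` is `⁅v', x z⁆ = ⁅v', x⁆` with `v' ∈ V`, `z = ` an element of `V`
(`V` is abelian and normal, `x ^ y = x z`). In `N / W` the image of `V` is central and
`(N/W)/(V/W)` is generated by two commuting elements, so abelian: `N / W` is nilpotent and `AbS`,
so commutative, and `⁅x, y⁆ ∈ W`. -/
def EleStmt : Prop := ∀ (G : Type u) [Group G] [Finite G] (V : Subgroup G) [V.Normal], AbS G →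
  (∀ a ∈ V, ∀ b ∈ V, a * b = b * a) → ∀ x y : G, ⁅x, y⁆ ∈ V → ⁅x, y⁆ ∈ Wc V x y

/-! ### Packet PNH: `p`-elements centralize `V` -/

/-- `V` a normal `p`-subgroup of an `AbS`-group. If `orderOf g = p ^ i * m` with `m` prime to `p`
then `⟨g ^ m⟩ V` is a `p`-group, so commutative. -/
def PnhStmt : Prop := ∀ (G : Type u) [Group G] [Finite G] (p : ℕ), p.Prime → AbS G →
  ∀ (V : Subgroup G) [V.Normal], IsPGroup p V →
    ∀ g : G, ∃ m : ℕ, ¬ p ∣ m ∧ 0 < m ∧ ∀ v ∈ V, g ^ m * v = v * g ^ m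

/-! ### Packet COP: coprime action of a commuting pair -/

/-- `V` a normal abelian `p`-subgroup, `x, y` commute modulo `V`, some powers `x ^ m`, `y ^ n` with
`m, n` prime to `p` centralize `V`. The endomorphism `v ↦ ∏_{i < m, j < n} (x^i y^j) v (x^i y^j)⁻¹`
of `V` maps `V` into `Cc`, is the `m n`-th power on `Cc` (so bijective there) and has kernel
`Wc`: it kills `Wc`, and `v ^ (m n) ∈ (image of v) * Wc`. So `V = Wc × Cc`. -/
def CopStmt : Prop := ∀ (G : Type u) [Group G] [Finite G] (p : ℕ), p.Prime →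
  ∀ (V : Subgroup G) [V.Normal], IsPGroup p V → (∀ a ∈ V, ∀ b ∈ V, a * b = b * a) →
  ∀ (x y : G) (m n : ℕ), ⁅x, y⁆ ∈ V → ¬ p ∣ m → ¬ p ∣ n → 0 < m → 0 < n →
    (∀ v ∈ V, x ^ m * v = v * x ^ m) → (∀ v ∈ V, y ^ n * v = v * y ^ n) →
    Nat.card V = Nat.card (Wc V x y) * Nat.card (Cc V x y)

/-! ### Packet PCT: commuting lifts of one commuting pair -/

/-- `V` normal abelian. `(u, w) ↦ ⁅x u, y w⁆ ⁅x, y⁆⁻¹` is (up to an automorphism) a homomorphism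
`V × V → V` with image `Wc V x y`; as `⁅x, y⁆` lies in the image, the solutions of
`⁅x u, y w⁆ = 1` form a coset of its kernel. -/
def PctStmt : Prop := ∀ (G : Type u) [Group G] [Finite G] (V : Subgroup G) [V.Normal],
  (∀ a ∈ V, ∀ b ∈ V, a * b = b * a) → ∀ x y : G, ⁅x, y⁆ ∈ Wc V x y →
  Nat.card {q : V × V // Commute (x * (q.1 : G)) (y * (q.2 : G))} * Nat.card (Wc V x y) =
    Nat.card V ^ 2

/-! ### Packet FRM: the class number formula -/

/-- Count the commuting pairs of `G` (Mathlib: `card_comm_eq_card_conjClasses_mul_card`) over the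
commuting pairs of `G / V`; `v ∈ Cc V x y` iff the classes of `x, y` are in `Kst V v` (`V` is
abelian, so `V ≤ centralizer {v}`). -/
def FrmStmt : Prop := ∀ (G : Type u) [Group G] [Finite G] (V : Subgroup G) [V.Normal],
  (∀ a ∈ V, ∀ b ∈ V, a * b = b * a) →
  (∀ x y : G, ⁅x, y⁆ ∈ V →
    Nat.card {q : V × V // Commute (x * (q.1 : G)) (y * (q.2 : G))} =
      Nat.card V * Nat.card (Cc V x y)) →
  Nat.card (G ⧸ V) * k G = ∑ᶠ v : V, Nat.card (Kst V (v : G)) * k (Kst V (v : G))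

/-! ### Packet ORB: sum over orbits -/

/-- orbit-stabilizer for `Kst`; the formula of FRM rewritten with representatives `T` of the
`G`-classes in `V` (`Kst V v` and `Kst V v'` are conjugate in `G / V` if `v, v'` are conjugate). -/
def OrbStmt : Prop := ∀ (G : Type u) [Group G] [Finite G] (V : Subgroup G) [V.Normal],
  (∀ a ∈ V, ∀ b ∈ V, a * b = b * a) →
  (∀ v : V, Nat.card {v' : V // IsConj (v : G) (v' : G)} * Nat.card (Kst V (v : G)) =
    Nat.card (G ⧸ V)) ∧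
  (Nat.card (G ⧸ V) * k G = ∑ᶠ v : V, Nat.card (Kst V (v : G)) * k (Kst V (v : G)) →
    ∃ T : Finset V, (∀ v : V, ∃ t ∈ T, IsConj (t : G) (v : G)) ∧
      (∀ t ∈ T, ∀ t' ∈ T, IsConj (t : G) (t' : G) → t = t') ∧
      ∑ t ∈ T, k (Kst V (t : G)) = k G)

/-! ### Packet GRP: two bounds for class numbers -/

/-- (1) `N` normal abelian of index `m`: `m k(X) ≥ m k(X/N) + |N| - 1` (the classes inside `N` have
at most `m` elements; every nontrivial class of `X / N` lifts). (2) `B` abelian of index 2: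
`2 k(X) ≥ |B| + 3`. (3) commutative groups. -/
def GrpStmt : Prop :=
  (∀ (X : Type u) [Group X] [Finite X] (N : Subgroup X) [N.Normal],
    (∀ x ∈ N, ∀ y ∈ N, x * y = y * x) →
    N.index * k (X ⧸ N) + Nat.card N ≤ N.index * k X + 1) ∧
  (∀ (X : Type u) [Group X] [Finite X] (B : Subgroup X), B.index = 2 →
    (∀ x ∈ B, ∀ y ∈ B, x * y = y * x) → Nat.card B + 3 ≤ 2 * k X) ∧
  (∀ (X : Type u) [Group X], (∀ x y : X, x * y = y * x) → k X = Nat.card X)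

/-! ### Packet MAX: a self-centralizing abelian normal subgroup -/

/-- May assume `AgqStmt`, `AgnStmt`. Take `A` maximal among the abelian normal subgroups. If
`C = centralizer A` is not inside `A`, then `C / (A ⊓ C)`, `A ≤ C`, contains a nontrivial abelian
normal subgroup `B / A` of `H / A` (solvable: last nontrivial derived subgroup of `C/A`);
`A` is central in `B` and `B / A` is abelian, so `B` is nilpotent, hence commutative. -/
def MaxStmt : Prop := ∀ (H : Type u) [Group H] [Finite H], Group.IsSolvable H → AbS H →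
  ∃ A : Subgroup H, A.Normal ∧ (∀ x ∈ A, ∀ y ∈ A, x * y = y * x) ∧
    Subgroup.centralizer (A : Set H) ≤ A

/-! ### The linear part -/

section Linear

variable {p : ℕ} [Fact p.Prime] {U : Type u} [AddCommGroup U] [Module (ZMod p) U]

/-- `H` acts irreducibly. -/
def Irr (H : Subgroup (U ≃ₗ[ZMod p] U)) : Prop :=
  ∀ W : Submodule (ZMod p) U, (∀ h ∈ H, ∀ w ∈ W, h w ∈ W) → W = ⊥ ∨ W = ⊤

/-- The algebra generated by `A` in `End U`. -/
def Rg (A : Subgroup (U ≃ₗ[ZMod p] U)) : Subalgebra (ZMod p) (Module.End (ZMod p) U) :=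
  Algebra.adjoin (ZMod p)
    ((fun a : U ≃ₗ[ZMod p] U => (a : Module.End (ZMod p) U)) '' (A : Set (U ≃ₗ[ZMod p] U)))

/-- Conjugation of an endomorphism by an automorphism. -/
def cj (h : U ≃ₗ[ZMod p] U) (x : Module.End (ZMod p) U) : Module.End (ZMod p) U :=
  (h : Module.End (ZMod p) U) * x * ((h⁻¹ : U ≃ₗ[ZMod p] U) : Module.End (ZMod p) U)

/-- The primitive idempotents of `Rg A` and their images, permuted transitively by `H`. -/
structure Dec (H A : Subgroup (U ≃ₗ[ZMod p] U)) (s q : ℕ)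
    (e : Fin s → Module.End (ZMod p) U) : Prop where
  mem : ∀ i, e i ∈ Rg A
  ne : ∀ i, e i ≠ 0
  idem : ∀ i, e i * e i = e i
  orth : ∀ i j, i ≠ j → e i * e j = 0
  sum : ∑ i, e i = 1
  fld : ∀ i, ∀ x ∈ Rg A, x * e i ≠ 0 → ∃ y ∈ Rg A, x * y * e i = e i
  perm : ∀ h ∈ H, ∀ i, ∃ j, cj h (e i) = e j
  trans : ∀ i j, ∃ h ∈ H, cj h (e i) = e j
  card : ∀ i, Nat.card (LinearMap.range (e i)) = q

/-- A level function for a decomposition of `U` into `s` blocks with `q` elements. -/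
def Levels (H : Subgroup (U ≃ₗ[ZMod p] U)) (s q : ℕ) : Prop :=
  2 ≤ q ∧ Nat.card U = q ^ s ∧ ∃ lev : U → ℕ, (∀ h ∈ H, ∀ u, lev (h u) = lev u) ∧
    ∀ j, Nat.card {u : U // lev u = j} = s.choose j * (q - 1) ^ j

/-- Outcome `s = 1`. -/
def OneOut (H : Subgroup (U ≃ₗ[ZMod p] U)) : Prop :=
  ∃ a d h : ℕ, 0 < a ∧ 0 < d ∧ 0 < h ∧ Nat.card U = p ^ a ∧ d ∣ a ∧ ¬ p ∣ d ∧ h ∣ p ^ a - 1 ∧
    (∀ a', a' ∣ a → a' < a → ¬ h ∣ p ^ a' - 1) ∧ Nat.card H = h * d ∧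
    d * d + h ≤ d * k H + 1

/-- Outcome `s = 2`. -/
def TwoOut (H : Subgroup (U ≃ₗ[ZMod p] U)) : Prop :=
  ∃ a e α : ℕ, p ≠ 2 ∧ 0 < a ∧ 0 < e ∧ 0 < α ∧ Levels H 2 (p ^ a) ∧ e ∣ a ^ 2 ∧ ¬ p ∣ e ∧
    Nat.card H = 2 * e * α ∧ α + e ^ 2 + 3 * e ≤ 2 * e * k H + 1 ∧
    ¬ (p ^ a = 9 ∧ 2 ≤ e) ∧ ¬ (p ^ a = 25 ∧ e = 4)

/-- Outcome: many orbits. -/
def ManyOut (H : Subgroup (U ≃ₗ[ZMod p] U)) : Prop :=
  ∀ r : ℕ, Nat.card U ≤ r * Nat.card H + 1 → Nat.card U ≤ 3 ^ r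

end Linear

/-! ### Packet DEC: the primitive idempotents -/

/-- `R = Rg A` is commutative; with `m ≥ 1` such that `p ^ m = 1` modulo `|A|` the `m`-th power of
the Frobenius map of `R` is the identity (it fixes `A` and `ZMod p` and is additive), so
`x ^ (p ^ m) = x` on `R` and `x ^ (p ^ m - 1)` is an idempotent `f` with `x f = x`. The minimal
nonzero idempotents `e i` of `R` (finitely many) are orthogonal with sum 1 and are permuted by the
conjugations with elements of `H` (`cj h` maps `R` onto `R`, `A` being normal in `H`). The sum of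
the ranges of the conjugates of `e i` is an `H`-invariant subspace, so transitivity. -/
def DecStmt : Prop := ∀ (p : ℕ) [Fact p.Prime] (U : Type u) [AddCommGroup U] [Module (ZMod p) U]
  [Finite U] [Nontrivial U] (H A : Subgroup (U ≃ₗ[ZMod p] U)), Irr H → A ≤ H →
  (∀ h ∈ H, ∀ a ∈ A, h * a * h⁻¹ ∈ A) → (∀ a ∈ A, ∀ b ∈ A, a * b = b * a) → ¬ p ∣ Nat.card A →
  ∃ (s q : ℕ) (e : Fin s → Module.End (ZMod p) U), 0 < s ∧ Dec H A s q e

/-! ### Packet LEV: levels -/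

/-- `lev u` is the number of `i` with `e i u ≠ 0`; `u ↦ (e i u)_i` is a bijection of `U` with the
product of the ranges. -/
def LevStmt : Prop := ∀ (p : ℕ) [Fact p.Prime] (U : Type u) [AddCommGroup U] [Module (ZMod p) U]
  [Finite U] (H A : Subgroup (U ≃ₗ[ZMod p] U)) (s q : ℕ) (e : Fin s → Module.End (ZMod p) U),
  0 < s → Dec H A s q e → Levels H s q

/-! ### Packet ONE: one block -/

/-- May assume `GrpStmt`. `R = Rg A` is a finite field (`fld` with `e 0 = 1`), `|R| = p ^ a`. `H`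
acts on `R` by `cj`, the kernel is the centralizer of `A` in `H`, so `H / A` embeds into the cyclic
group of automorphisms of `R`, of order `a`: `d = |H / A|` divides `a`. `U` is one-dimensional over
`R`: let `σ ∈ H` generate `H` modulo `A`, `τ = cj σ` on `R`, of order `d`, with fixed field `R₀`.
`σ ^ d = c₀ ∈ A` is fixed by `τ`, so `c₀ ∈ R₀` is the norm of some `b ∈ R` (norms of finite fields
are surjective); `σ' = b⁻¹ σ` is `τ`-semilinear and `σ' ^ d = 1`; for `u ≠ 0` some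
`v = ∑_{i<d} σ' ^ i (c u)`, `c ∈ R`, is nonzero (independence of `1, τ, …, τ^(d-1)`), `σ' v = v` and
`R v` is invariant under `A` and `σ`, so it is `U`. Hence `|U| = p ^ a`. `h = |A|` divides
`|Rˣ| = p ^ a - 1`. If `h ∣ p ^ a' - 1` with `a' ∣ a`, `a' < a`, then `A`, so `R`, lies in the
proper subfield `{x | x ^ (p ^ a') = x}`. The class number: GRP (1), (3) for `A ≤ H`, `H / A`
commutative of order `d`. -/
def OneStmt : Prop := ∀ (p : ℕ) [Fact p.Prime] (U : Type u) [AddCommGroup U] [Module (ZMod p) U]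
  [Finite U] [Nontrivial U] (H A : Subgroup (U ≃ₗ[ZMod p] U)) (q : ℕ)
  (e : Fin 1 → Module.End (ZMod p) U), Irr H → A ≤ H →
  (∀ h ∈ H, ∀ a ∈ A, h * a * h⁻¹ ∈ A) → (∀ a ∈ A, ∀ b ∈ A, a * b = b * a) →
  (∀ h ∈ H, (∀ a ∈ A, h * a = a * h) → h ∈ A) → ¬ p ∣ Nat.card H → Dec H A 1 q e → OneOut H

/-! ### Packet TWA: two blocks, structure -/

/-- `R = Rg A`, `e 1 = 1 - e 0`, `R = e 0 R × e 1 R`, two fields exchanged by some `cj τ`, `τ ∈ H`,
so both of order `p ^ a`; `|A| ≤ (p ^ a - 1) ^ 2` as `A ⊆ Rˣ`; the range of `e i` is a vector space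
over `e i R`, so `q = p ^ (a b)`. `M` = the elements of `H` with `cj h (e 0) = e 0`, of index 2 in
`H`; `M → Aut (e 0 R) × Aut (e 1 R)` (both cyclic of order `a`) has kernel `A`. If it is
surjective and `a ≥ 2` take `m ∈ M` acting trivially on `e 1 R` only; `τ m τ⁻¹` acts trivially on
`e 0 R` only, so `m`, `τ` do not commute modulo `A`. -/
def TwaStmt : Prop := ∀ (p : ℕ) [Fact p.Prime] (U : Type u) [AddCommGroup U] [Module (ZMod p) U]
  [Finite U] [Nontrivial U] (H A : Subgroup (U ≃ₗ[ZMod p] U)) (q : ℕ)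
  (e : Fin 2 → Module.End (ZMod p) U), A ≤ H →
  (∀ h ∈ H, ∀ a ∈ A, h * a * h⁻¹ ∈ A) → (∀ a ∈ A, ∀ b ∈ A, a * b = b * a) →
  (∀ h ∈ H, (∀ a ∈ A, h * a = a * h) → h ∈ A) → Dec H A 2 q e →
  ∃ (a b f : ℕ) (M : Subgroup (U ≃ₗ[ZMod p] U)), 0 < a ∧ 0 < b ∧ 0 < f ∧ q = p ^ (a * b) ∧
    A ≤ M ∧ M ≤ H ∧ Nat.card H = 2 * Nat.card M ∧ Nat.card M = f * Nat.card A ∧ f ∣ a ^ 2 ∧
    Nat.card A ≤ (p ^ a - 1) ^ 2 ∧ Nat.card A ∣ (p ^ a - 1) ^ 2 ∧
    (∀ x ∈ M, ∀ y ∈ M, x * y * x⁻¹ * y⁻¹ ∈ A) ∧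
    (2 ≤ a → f = a ^ 2 → ∃ x ∈ H, ∃ y ∈ H, x * y * x⁻¹ * y⁻¹ ∉ A)

/-! ### Packets N1, N2, N3, N4: numbers -/

/-- N1. With `x = log_3`, `y = x κ`, `ω = x w`: `c1 ≥ 1 + y - x (s w)`,
`c2 ≥ 1 + y - x (s (s-1)/2 w²)`, `r ≥ w^s / κ = 3 ^ (s ω - y) ≥ 0.7 + 2 (s ω - y)`; so
`c1 + c2 + r + (s-3) ≥ s - 0.3 + (2 s - 3) ω - x (s² (s-1)/2) ≥ s x (w+1)` for `s ≥ 4`, `w ≥ 3`, and
for `s = 3`, `w ≥ 4`. `s = w = 3`: if `κ ≥ 27` then `c1 ≥ 2`, otherwise `r ≥ 2`. -/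
def N1Stmt : Prop := ∀ s w κ c1 c2 r : ℕ, 3 ≤ s → 3 ≤ w → 1 ≤ κ → 1 ≤ c1 → 1 ≤ c2 → 1 ≤ r →
  3 * κ ≤ 3 ^ c1 * (s * w) → 3 * κ ≤ 3 ^ c2 * (s.choose 2 * w ^ 2) → w ^ s ≤ r * κ →
  (w + 1) ^ s ≤ 3 ^ (c1 + c2 + r + (s - 3))

/-- N2. With `x = 2 e α`, `w = q - 1`, `k ≥ x/(4e²) - 1/(2e) + (e+3)/2`,
`c ≥ max 1 (1 + log_3 (x/(2w)))`, `r ≥ w²/x`: the sum `k + c + r - 1` is at least
`2 log_3 q + 2 log_3 w`; minimum near `x = 2 e w`. Checked by computer for all `q < 10^9`;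
`w/e + (e+3)/2 - 1/(2e) + log_3 e` for large `q`. -/
def N2Stmt : Prop := ∀ p a e α kk c r : ℕ, p.Prime → p ≠ 2 → 0 < a → 5 ≤ p ^ a → 0 < e → 0 < α →
  e ∣ a ^ 2 → ¬ p ∣ e → ¬ (p ^ a = 9 ∧ 2 ≤ e) → ¬ (p ^ a = 25 ∧ e = 4) →
  α + e ^ 2 + 3 * e ≤ 2 * e * kk + 1 → 1 ≤ c → 1 ≤ r →
  3 * (2 * e * α) ≤ 3 ^ c * (2 * (p ^ a - 1)) → (p ^ a - 1) ^ 2 ≤ r * (2 * e * α) →
  (p ^ a) ^ 2 * (p ^ a - 1) ^ 2 ≤ 3 ^ (kk + c + r - 1)

/-- N3. `kk ≥ d + (h-1)/d`, `r ≥ (q-1)/(h d)`, `q = p ^ a ≥ 4`: `kk + r - 1 ≥ log_3 q + log_3 (q-1)`.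
From `2 sqrt (q-1) / d + d - 1/d - 1` except `(q,d) = (8,3), (9,2), (25,2), (32,5), (64,3), (81,4)`
and small `q` with `d = 1`; `(64,3,h=7)` is excluded by the hypothesis on `a'`. -/
def N3Stmt : Prop := ∀ p a d h kk r : ℕ, p.Prime → 0 < a → 4 ≤ p ^ a → 0 < d → 0 < h → d ∣ a →
  ¬ p ∣ d → h ∣ p ^ a - 1 → (∀ a', a' ∣ a → a' < a → ¬ h ∣ p ^ a' - 1) →
  d * d + h ≤ d * kk + 1 → 1 ≤ r → p ^ a - 1 ≤ r * (h * d) →
  p ^ a * (p ^ a - 1) ≤ 3 ^ (kk + r - 1)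

/-- N4. -/
def N4Stmt : Prop := ∀ p a b r : ℕ, p.Prime → p ≠ 2 → 0 < a → 2 ≤ b →
  p ^ (2 * a * b) ≤ r * (2 * a ^ 2 * (p ^ a - 1) ^ 2) + 1 → p ^ (2 * a * b) ≤ 3 ^ r

/-! ### Packet TWB: two blocks, numbers -/

/-- May assume `GrpStmt`, `AgqStmt`, `N4Stmt`, `TwaStmt`, `LevStmt`. `p ≠ 2` as `2 ∣ |H|`.
`b ≥ 2`: `ManyOut`. `b = 1`: `α = |A|`; GRP (1) for `A` in `H` (index `2 e`), GRP (2) for `M / A` in
`H / A`. `q = 9`, `e` even: `|H|` is a power of 2, so `H` is commutative, so `H = A`: impossible.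
`q = 25`, `e = 4`: `|H / A| = 8` and `H / A` is not commutative, against `AgqStmt`. -/
def TwbStmt : Prop := ∀ (p : ℕ) [Fact p.Prime] (U : Type u) [AddCommGroup U] [Module (ZMod p) U]
  [Finite U] [Nontrivial U] (H A : Subgroup (U ≃ₗ[ZMod p] U)) (q : ℕ)
  (e : Fin 2 → Module.End (ZMod p) U), A ≤ H →
  (∀ h ∈ H, ∀ a ∈ A, h * a * h⁻¹ ∈ A) → (∀ a ∈ A, ∀ b ∈ A, a * b = b * a) →
  (∀ h ∈ H, (∀ a ∈ A, h * a = a * h) → h ∈ A) → ¬ p ∣ Nat.card H → AbS H → Dec H A 2 q e →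
  TwoOut H ∨ ManyOut H

/-! ### Packet CNV: a minimal normal subgroup as a module -/

/-- `V` a minimal normal subgroup of the nontrivial finite solvable group `G` (elementary abelian),
`U = Additive V`, `ρ` the action by conjugation. -/
def CnvStmt : Prop := ∀ (G : Type u) [Group G] [Finite G] [Nontrivial G], Group.IsSolvable G →
  ∃ (p : ℕ) (_ : Fact p.Prime) (V : Subgroup G) (hV : V.Normal) (U : Type u) (_ : AddCommGroup U)
    (_ : Module (ZMod p) U) (_ : Finite U) (_ : Nontrivial U) (ρ : G →* (U ≃ₗ[ZMod p] U))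
    (φ : V ≃ U), (∀ a ∈ V, ∀ b ∈ V, a * b = b * a) ∧ IsPGroup p V ∧ φ 1 = 0 ∧
    (∀ (g : G) (v : V), φ ⟨g * (v : G) * g⁻¹, hV.conj_mem v v.2 g⟩ = ρ g (φ v)) ∧
    (∀ g ∈ V, ρ g = 1) ∧ Irr ρ.range

/-! ### Packet LIN: the linear alternative -/

/-- May assume `AgqStmt`, `MaxStmt`, `DecStmt`, `LevStmt`, `OneStmt`, `TwbStmt`. Apply MAX to the
group `H`. -/
def LinStmt : Prop := ∀ (p : ℕ) [Fact p.Prime] (U : Type u) [AddCommGroup U] [Module (ZMod p) U]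
  [Finite U] [Nontrivial U] (H : Subgroup (U ≃ₗ[ZMod p] U)), Irr H → Group.IsSolvable H → AbS H →
  ¬ p ∣ Nat.card H →
  (∃ s q, 3 ≤ s ∧ Levels H s q) ∨ OneOut H ∨ TwoOut H ∨ ManyOut H

/-! ### Packet STP: the induction step in numbers -/

/-- The data of one induction step: `T` = representatives of the `G`-classes in `V`,
`kk t = k (Kst V t)`, `κ = |G / V|`, `nn v` = size of the class of `v`. -/
def StpStmt : Prop := ∀ (p : ℕ) [Fact p.Prime] (G : Type u) [Group G] [Finite G]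
  (V : Subgroup G) [hV : V.Normal] (U : Type u) [AddCommGroup U] [Module (ZMod p) U] [Finite U]
  [Nontrivial U] (ρ : G →* (U ≃ₗ[ZMod p] U)) (φ : V ≃ U),
  (∀ a ∈ V, ∀ b ∈ V, a * b = b * a) → φ 1 = 0 →
  (∀ (g : G) (v : V), φ ⟨g * (v : G) * g⁻¹, hV.conj_mem v v.2 g⟩ = ρ g (φ v)) →
  (∀ g ∈ V, ρ g = 1) →
  (∀ v : V, Nat.card {v' : V // IsConj (v : G) (v' : G)} * Nat.card (Kst V (v : G)) =
    Nat.card (G ⧸ V)) →
  (∃ T : Finset V, (∀ v : V, ∃ t ∈ T, IsConj (t : G) (v : G)) ∧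
      (∀ t ∈ T, ∀ t' ∈ T, IsConj (t : G) (t' : G) → t = t') ∧
      ∑ t ∈ T, k (Kst V (t : G)) = k G) →
  (∀ v : V, 3 * Nat.card (Kst V (v : G)) ≤ 3 ^ k (Kst V (v : G))) →
  ((∃ s q, 3 ≤ s ∧ Levels ρ.range s q) ∨ OneOut ρ.range ∨ TwoOut ρ.range ∨ ManyOut ρ.range) →
  3 * Nat.card G ≤ 3 ^ k G

end Pool.Agent.Helper32.AG
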