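import Pool.Agent.Helper32.AG.Goals
import Pool.Agent.Helper71.KG.DL2

set_option autoImplicit false

namespace Pool.Agent.Helper32.AG

universe u

theorem central_step {G : Type u} [Group G] [Finite G]
    (h : 3 * Nat.card (G ⧸ Subgroup.center G) ≤ 3 ^ k (G ⧸ Subgroup.center G)) :
    3 * Nat.card G ≤ 3 ^ k G := by
  obtain ⟨g, hg1, hg2⟩ := Helper46.KG.stage_central (⊤ : Subgroup G) (Subgroup.center G)
    (fun z hz x _ => (Subgroup.mem_center_iff.mp hz) x)
  rw [Subgroup.index_top, one_mul] at hg1
  have h1 := (Subgroup.center G).card_mul_index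
  have h2 : Nat.card (G ⧸ Subgroup.center G) = (Subgroup.center G).index := rfl
  have h3 : g + 1 ≤ 3 ^ g := Nat.lt_pow_self (by norm_num)
  have hg2' : k (G ⧸ Subgroup.center G) + g ≤ k G := hg2
  calc 3 * Nat.card G = Nat.card (Subgroup.center G) * (3 * Nat.card (G ⧸ Subgroup.center G)) := by
        rw [h2, ← h1]; ring
    _ ≤ 3 ^ g * (3 * Nat.card (G ⧸ Subgroup.center G)) := Nat.mul_le_mul_right _ (hg1.trans h3)
    _ ≤ 3 ^ g * 3 ^ k (G ⧸ Subgroup.center G) := Nat.mul_le_mul_left _ h
    _ = 3 ^ (k (G ⧸ Subgroup.center G) + g) := by rw [pow_add]; ring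
    _ ≤ 3 ^ k G := Nat.pow_le_pow_right (by norm_num) hg2'

theorem of_hyper (hAgq : AgqStmt.{u})
    (main : ∀ (G : Type u) [Group G] [Finite G], Group.IsSolvable G → AbS G →
      3 * Nat.card G ≤ 3 ^ k G) (n : ℕ) :
    ∀ (G : Type u) [Group G] [Finite G], Group.IsSolvable (G ⧸ Subgroup.upperCentralSeries G n) →
      AbS (G ⧸ Subgroup.upperCentralSeries G n) → 3 * Nat.card G ≤ 3 ^ k G := by
  induction n with
  | zero =>
    intro G _ _ hs ha
    have h0 : ∀ x ∈ Subgroup.upperCentralSeries G 0, MonoidHom.id G x = 1 := by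
      intro x hx
      rw [Subgroup.upperCentralSeries_zero, Subgroup.mem_bot] at hx
      rw [hx, map_one]
    have hsur : Function.Surjective
        (QuotientGroup.lift (Subgroup.upperCentralSeries G 0) (MonoidHom.id G) h0) := fun x =>
      ⟨(x : G ⧸ Subgroup.upperCentralSeries G 0), rfl⟩
    exact main G (Group.isSolvable_of_surjective hsur) (hAgq.1 _ _ _ hsur ha)
  | succ n ih =>
    intro G _ _ hs ha
    have hle : Subgroup.upperCentralSeries G (n + 1) ≤
        (Subgroup.upperCentralSeries (G ⧸ Subgroup.center G) n).comap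
          (QuotientGroup.mk' (Subgroup.center G)) := by
      rw [Subgroup.comap_upperCentralSeries_quotient_center]
    have hsur : Function.Surjective (QuotientGroup.map (Subgroup.upperCentralSeries G (n + 1))
        (Subgroup.upperCentralSeries (G ⧸ Subgroup.center G) n)
        (QuotientGroup.mk' (Subgroup.center G)) hle) := by
      intro y
      obtain ⟨z, rfl⟩ := QuotientGroup.mk_surjective y
      obtain ⟨x, rfl⟩ := QuotientGroup.mk_surjective z
      exact ⟨(x : G ⧸ Subgroup.upperCentralSeries G (n + 1)), rfl⟩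
    exact central_step (ih (G ⧸ Subgroup.center G) (Group.isSolvable_of_surjective hsur)
      (hAgq.1 _ _ _ hsur ha))

end Pool.Agent.Helper32.AG
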