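import Pool.Agent.Helper32.AG.Final
import Pool.Agent.Helper32.AG.Hyp
import Pool.Agent.Helper56.AG.AGQ
import Pool.Agent.Helper75.AG.AGN
import Pool.Agent.Helper57.AG.ELE
import Pool.Agent.Helper91.AG.PNH
import Pool.Agent.Helper17.AG.COP
import Pool.Agent.Helper70.AG.PCT
import Pool.Agent.Helper45.AG.FRM
import Pool.Agent.Helper59.AG.ORB
import Pool.Agent.Helper68.AG.GRP
import Pool.Agent.Helper79.AG.MAX
import Pool.Agent.Helper66.AG.DEC
import Pool.Agent.Helper16.AG.LEV
import Pool.Agent.Helper36.AG.N1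
import Pool.Agent.Helper30.AG.N2
import Pool.Agent.Helper80.AG.N3
import Pool.Agent.Helper78.AG.N4
import Pool.Agent.Helper46.AG.TWB
import Pool.Agent.Helper4.AG.LIN
import Pool.Agent.Helper53.AG.STP
import Pool.Agent.Helper54.AG.CNV
import Pool.Agent.Helper12.AG.TWA
import Pool.Agent.Helper13.AG.ONEb

set_option autoImplicit false

namespace Pool.Agent.Helper32.AG

universe u

theorem main :
    ∀ (G : Type u) [Group G] [Finite G], Group.IsSolvable G → AbS G →
      3 * Nat.card G ≤ 3 ^ k G := by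
  intro G _ _ hs ha
  have hAgq : AgqStmt.{u} := Helper56.AG.agq
  have hAgn : AgnStmt.{u} := Helper75.AG.agn
  have hGrp : GrpStmt.{u} := Helper68.AG.grp
  have hLev : LevStmt.{u} := Helper16.AG.lev
  have hTwb : TwbStmt.{u} := Helper46.AG.twb hGrp hAgq Helper78.AG.n4 Helper12.AG.twa hLev
  have hLin : LinStmt.{u} := Helper4.AG.lin (Helper79.AG.max hAgq hAgn) Helper66.AG.dec hLev
    (Helper13.AG.one hGrp)
    hTwb
  exact final hAgq (Helper57.AG.ele hAgq hAgn) Helper91.AG.pnh Helper17.AG.cop Helper70.AG.PCT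
    Helper45.AG.frm Helper59.AG.orb Helper54.AG.cnv hLin
    (Helper53.AG.stp Helper36.AG.n1 Helper30.AG.n2 Helper80.AG.n3) _ G rfl hs ha

theorem sylow_abS {G : Type u} [Group G] [Finite G]
    (h : ∀ p : ℕ, p.Prime → ∀ P : Sylow p G, ∀ x ∈ P, ∀ y ∈ P, x * y = y * x) : AbS G := by
  intro p hp P hP x hx y hy
  obtain ⟨Q, hQ⟩ := hP.exists_le_sylow
  exact h p hp Q x (hQ hx) y (hQ hy)

theorem logb_form {G : Type u} [Group G] [Finite G] (h : 3 * Nat.card G ≤ 3 ^ k G) :
    1 + Real.logb 3 (Nat.card G) ≤ Nat.card (ConjClasses G) := by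
  have h1 : (0 : ℝ) < Nat.card G := by exact_mod_cast Nat.card_pos (α := G)
  have h2 : (3 : ℝ) * Nat.card G ≤ 3 ^ (Nat.card (ConjClasses G)) := by exact_mod_cast h
  have h3 : Real.logb 3 (3 * (Nat.card G : ℝ)) = 1 + Real.logb 3 (Nat.card G) := by
    rw [Real.logb_mul (by norm_num) h1.ne', Real.logb_self_eq_one (by norm_num)]
  rw [← h3, Real.logb_le_iff_le_rpow (by norm_num) (by positivity), Real.rpow_natCast]
  exact h2

end Pool.Agent.Helper32.AG
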