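import Pool.Agent.Helper32.AG.Goals

set_option autoImplicit false

namespace Pool.Agent.Helper32.AG

universe u

open scoped commutatorElement

theorem final (hAgq : AgqStmt.{u}) (hEle : EleStmt.{u}) (hPnh : PnhStmt.{u}) (hCop : CopStmt.{u})
    (hPct : PctStmt.{u}) (hFrm : FrmStmt.{u}) (hOrb : OrbStmt.{u}) (hCnv : CnvStmt.{u})
    (hLin : LinStmt.{u}) (hStp : StpStmt.{u}) :
    ∀ (n : ℕ) (G : Type u) [Group G] [Finite G], Nat.card G = n → Group.IsSolvable G → AbS G →
      3 * Nat.card G ≤ 3 ^ k G := by
  intro n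
  induction n using Nat.strong_induction_on with
  | _ n ih =>
  intro G _ _ hn hsol hab
  rcases subsingleton_or_nontrivial G with hG | hG
  · have h1 : Nat.card G = 1 := Nat.card_of_subsingleton 1
    have h2 : Nonempty (ConjClasses G) := ⟨ConjClasses.mk 1⟩
    have h3 : 0 < k G := Nat.card_pos
    rw [h1]
    calc 3 * 1 = 3 ^ 1 := by norm_num
      _ ≤ 3 ^ k G := Nat.pow_le_pow_right (by norm_num) h3
  · obtain ⟨p, hp, V, hV, U, iU, mU, fU, nU, ρ, φ, hcomm, hpg, hφ1, hφ, hker, hirr⟩ :=
      hCnv G hsol
    have hprime : p.Prime := hp.out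
    -- `V` is nontrivial
    have hVcard : 1 < Nat.card V := by
      have : Nontrivial V := φ.nontrivial
      exact Finite.one_lt_card
    have hGV : Nat.card (G ⧸ V) < Nat.card G := by
      have h1 := Subgroup.card_eq_card_quotient_mul_card_subgroup V
      have h2 : 0 < Nat.card (G ⧸ V) := Nat.card_pos
      nlinarith
    -- the quotient
    have habQ : AbS (G ⧸ V) := hAgq.1 G (G ⧸ V) (QuotientGroup.mk' V)
      (QuotientGroup.mk'_surjective V) hab
    have hsolQ : Group.IsSolvable (G ⧸ V) := inferInstance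
    -- the induction hypothesis for the stabilizers
    have hst : ∀ v : V, 3 * Nat.card (Kst V (v : G)) ≤ 3 ^ k (Kst V (v : G)) := by
      intro v
      have h1 : Nat.card (Kst V (v : G)) ≤ Nat.card (G ⧸ V) := Subgroup.card_le_card_group _
      exact ih _ (by omega) (Kst V (v : G)) rfl inferInstance
        (hAgq.2 _ _ (Kst V (v : G)).subtype (Subgroup.subtype_injective _) habQ)
    -- commuting pairs
    have hpairs : ∀ x y : G, ⁅x, y⁆ ∈ V →
        Nat.card {q : V × V // Commute (x * (q.1 : G)) (y * (q.2 : G))} =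
          Nat.card V * Nat.card (Cc V x y) := by
      intro x y hxy
      have h1 := hEle G V hab hcomm x y hxy
      have h2 := hPct G V hcomm x y h1
      obtain ⟨m, hm, hm0, hmx⟩ := hPnh G p hprime hab V hpg x
      obtain ⟨m', hm', hm0', hmy⟩ := hPnh G p hprime hab V hpg y
      have h3 := hCop G p hprime V hpg hcomm x y m m' hxy hm hm' hm0 hm0' hmx hmy
      have h4 : 0 < Nat.card (Wc V x y) := Nat.card_pos
      refine Nat.eq_of_mul_eq_mul_right h4 ?_
      rw [h2]
      calc Nat.card V ^ 2 = Nat.card V * Nat.card V := by ring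
        _ = Nat.card V * (Nat.card (Wc V x y) * Nat.card (Cc V x y)) := by rw [← h3]
        _ = Nat.card V * Nat.card (Cc V x y) * Nat.card (Wc V x y) := by ring
    have hform := hFrm G V hcomm hpairs
    obtain ⟨ho1, ho2⟩ := hOrb G V hcomm
    have hT := ho2 hform
    -- the linear group
    have hfinH : Finite ρ.range := Finite.of_surjective _ ρ.rangeRestrict_surjective
    have hsolH : Group.IsSolvable ρ.range :=
      Group.isSolvable_of_surjective ρ.rangeRestrict_surjective
    have habH : AbS ρ.range := hAgq.1 G ρ.range ρ.rangeRestrict ρ.rangeRestrict_surjective hab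
    have hpH : ¬ p ∣ Nat.card ρ.range := by
      intro hd
      obtain ⟨⟨h, hh⟩, hord⟩ := exists_prime_orderOf_dvd_card' p hd
      obtain ⟨g, rfl⟩ := hh
      obtain ⟨m, hm, -, hmg⟩ := hPnh G p hprime hab V hpg g
      apply hm
      rw [← hord]
      apply orderOf_dvd_of_pow_eq_one
      apply Subtype.ext
      change (ρ g) ^ m = 1
      rw [← map_pow]
      ext u
      obtain ⟨v, rfl⟩ := φ.surjective u
      rw [← hφ (g ^ m) v]
      change φ _ = φ v
      congr 1
      apply Subtype.ext
      change g ^ m * (v : G) * (g ^ m)⁻¹ = v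
      rw [hmg v v.2, mul_assoc, mul_inv_cancel, mul_one]
    exact hStp p G V U ρ φ hcomm hφ1 hφ hker ho1 hT hst
      (hLin p U ρ.range hirr hsolH habH hpH)

end Pool.Agent.Helper32.AG
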